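import Pool.Agent.helper7.PQ.Spec
import Pool.Agent.helper29.OC.PIAP

/-!
# Project pq (MP_ebc808_nt), row PRE: many primes in the two classes
-/

set_option autoImplicit false

open Finset PowerSeries

noncomputable section

namespace Pool.Agent.PQ

open Pool.Agent.EP

/-- coprimality from `N ∣ c + 1` -/
theorem PRE_cop (N c : ℕ) (h : N ∣ c + 1) : Nat.Coprime c N := by
  have h1 : Nat.gcd c N ∣ c := Nat.gcd_dvd_left _ _
  have h2 : Nat.gcd c N ∣ c + 1 := (Nat.gcd_dvd_right _ _).trans h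
  have h3 : Nat.gcd c N ∣ 1 := (Nat.dvd_add_right h1).1 h2
  exact Nat.dvd_one.1 h3

/-- the first class -/
theorem PRE_class1 (L μ Q : ℕ) (hL : 1 < L) (hμ : 1 < μ) (hQL : Q.Coprime L) (hQμ : Q.Coprime μ)
    (hLμ : L.Coprime μ) : ∃ c : ℕ, c.Coprime (L * μ) ∧
      ∀ P : ℕ, P % (L * μ) = c % (L * μ) → (Q * P) % L = 1 ∧ μ ∣ Q * P + 1 := by
  obtain ⟨c₁, -, hc₁⟩ := Nat.exists_mul_mod_eq_one_of_coprime hQL hL
  obtain ⟨c₂, -, hc₂⟩ := Nat.exists_mul_mod_eq_one_of_coprime hQμ hμ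
  obtain ⟨c, hcL, hcμ⟩ := Nat.chineseRemainder hLμ c₁ (c₂ * (μ - 1))
  have key : ∀ P : ℕ, P ≡ c [MOD L * μ] → Q * P ≡ 1 [MOD L] ∧ μ ∣ Q * P + 1 := by
    intro P hP
    have h1 : P ≡ c [MOD L] := hP.of_mul_right μ
    have h2 : P ≡ c [MOD μ] := hP.of_mul_left L
    constructor
    · have h3 : Q * P ≡ Q * c₁ [MOD L] := (h1.trans hcL).mul_left Q
      have h4 : Q * c₁ ≡ 1 [MOD L] := by
        unfold Nat.ModEq
        rw [hc₁, Nat.mod_eq_of_lt hL]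
      exact h3.trans h4
    · have h3 : Q * P ≡ Q * (c₂ * (μ - 1)) [MOD μ] := (h2.trans hcμ).mul_left Q
      have h4 : Q * c₂ ≡ 1 [MOD μ] := by
        unfold Nat.ModEq
        rw [hc₂, Nat.mod_eq_of_lt hμ]
      have h5 : Q * (c₂ * (μ - 1)) ≡ 1 * (μ - 1) [MOD μ] := by
        have h6 := h4.mul_right (μ - 1)
        rwa [mul_assoc] at h6
      have h7 : Q * P + 1 ≡ 1 * (μ - 1) + 1 [MOD μ] := (h3.trans h5).add_right 1
      have h8 : 1 * (μ - 1) + 1 = μ := by omega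
      rw [h8] at h7
      exact (h7.dvd_iff (dvd_refl μ)).2 (dvd_refl μ)
  obtain ⟨k1, k2⟩ := key c (Nat.ModEq.refl c)
  refine ⟨c, ?_, ?_⟩
  · apply Nat.Coprime.mul_right
    · have h1 : Nat.Coprime (Q * c) L := by
        have := k1.gcd_eq
        unfold Nat.Coprime
        rw [this]
        exact Nat.gcd_one_left L
      exact Nat.Coprime.coprime_mul_left h1
    · exact Nat.Coprime.coprime_mul_left (PRE_cop μ (Q * c) k2)
  · intro P hP
    obtain ⟨h1, h2⟩ := key P hP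
    refine ⟨?_, h2⟩
    unfold Nat.ModEq at h1
    rw [h1, Nat.mod_eq_of_lt hL]

/-- the second class -/
theorem PRE_class2 (L Q m : ℕ) (hQ : 0 < Q) (hLQ : L.Coprime Q) (hm : m.Coprime L) :
    ∃ c : ℕ, c.Coprime (L * Q) ∧ ∀ P : ℕ, P % (L * Q) = c % (L * Q) → P % L = m % L ∧ Q ∣ P + 1 := by
  obtain ⟨c, hcL, hcQ⟩ := Nat.chineseRemainder hLQ m (Q - 1)
  have key : ∀ P : ℕ, P ≡ c [MOD L * Q] → P ≡ m [MOD L] ∧ Q ∣ P + 1 := by
    intro P hP
    have h1 : P ≡ c [MOD L] := hP.of_mul_right Q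
    have h2 : P ≡ c [MOD Q] := hP.of_mul_left L
    refine ⟨h1.trans hcL, ?_⟩
    have h7 : P + 1 ≡ (Q - 1) + 1 [MOD Q] := (h2.trans hcQ).add_right 1
    have h8 : (Q - 1) + 1 = Q := by omega
    rw [h8] at h7
    exact (h7.dvd_iff (dvd_refl Q)).2 (dvd_refl Q)
  obtain ⟨k1, k2⟩ := key c (Nat.ModEq.refl c)
  refine ⟨c, ?_, fun P hP => key P hP⟩
  apply Nat.Coprime.mul_right
  · have := k1.gcd_eq
    unfold Nat.Coprime
    rw [this]
    exact hm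
  · exact PRE_cop Q c k2

theorem PRE : PRE_stmt := by
  classical
  intro b t n₀ u₀ μ r s hE
  obtain ⟨hb, hb3, ht, -, -, -, -, hmm, hs, -, hμ, hdvd⟩ := hE
  have hL0 : 0 < 24 * t * 2 ^ b := by positivity
  have hL : 1 < 24 * t * 2 ^ b := by
    have h1 : 0 < t * 2 ^ b := by positivity
    have h2 : 24 * t * 2 ^ b = 24 * (t * 2 ^ b) := by ring
    omega
  have hQ0 : 0 < ∏ q ∈ s, q := Finset.prod_pos fun q hq => (hs q hq).1.pos
  have hQL : (∏ q ∈ s, q).Coprime (24 * t * 2 ^ b) := by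
    apply Nat.Coprime.prod_left
    intro q hq
    obtain ⟨h1, -, h3⟩ := hs q hq
    rw [Nat.Prime.coprime_iff_not_dvd h1]
    intro h4
    have := Nat.le_of_dvd hL0 h4
    omega
  have hQμ : (∏ q ∈ s, q).Coprime μ :=
    (PRE_cop _ μ ((Dvd.intro_left _ rfl).trans hdvd)).symm
  have hLμ : (24 * t * 2 ^ b).Coprime μ :=
    (PRE_cop _ μ ((Dvd.intro _ rfl).trans hdvd)).symm
  constructor
  · obtain ⟨a, ha1, ha2⟩ := PRE_class1 (24 * t * 2 ^ b) μ (∏ q ∈ s, q) hL hμ.one_lt hQL hQμ hLμ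
    obtain ⟨c, x₀, hc, hx⟩ := Pool.Agent.helper7.OC.primes_ap (24 * t * 2 ^ b * μ) a
      (Nat.mul_pos hL0 hμ.pos) ha1
    refine ⟨c, max x₀ (s.sup id), hc, fun y hy => ?_⟩
    refine le_trans (hx y ((le_max_left _ _).trans hy)) ?_
    norm_cast
    apply Finset.card_le_card
    intro P hP
    simp only [mem_filter] at hP ⊢
    obtain ⟨hP1, hP2, hP3⟩ := hP
    obtain ⟨h1, h2⟩ := ha2 P hP3
    refine ⟨hP1, hP2, h1, h2, ?_⟩
    intro h3
    have h4 : P ≤ s.sup id := Finset.le_sup (f := id) h3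
    have h5 := (le_max_right x₀ (s.sup id)).trans hy
    rw [mem_Ioc] at hP1
    omega
  · obtain ⟨a, ha1, ha2⟩ := PRE_class2 (24 * t * 2 ^ b) (∏ q ∈ s, q) (mm b n₀ u₀) hQ0 hQL.symm hmm
    obtain ⟨c, x₀, hc, hx⟩ := Pool.Agent.helper7.OC.primes_ap (24 * t * 2 ^ b * ∏ q ∈ s, q) a
      (Nat.mul_pos hL0 hQ0) ha1
    refine ⟨c, x₀, hc, fun y hy => ?_⟩
    refine le_trans (hx y hy) ?_
    norm_cast
    apply Finset.card_le_card
    intro P hP
    simp only [mem_filter] at hP ⊢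
    obtain ⟨hP1, hP2, hP3⟩ := hP
    obtain ⟨h1, h2⟩ := ha2 P hP3
    exact ⟨hP1, hP2, h1, fun q hq => (Finset.dvd_prod_of_mem _ hq).trans h2⟩

end Pool.Agent.PQ
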